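import Pool.Agent.N273.BR.Stm

/-!
BR/WLV: Lévy's generalization of the Borel-Cantelli lemma with bounded weights.
-/

set_option autoImplicit false

open MeasureTheory Filter Topology ProbabilityTheory
open scoped NNReal ENNReal BigOperators

namespace Pool.Agent.N596.BR

variable {Ω : Type} {m0 : MeasurableSpace Ω} {μ : Measure Ω} {ℱ : Filtration ℕ m0}

/-- weighted counting process -/
noncomputable def wp (v : ℕ → ℝ) (s : ℕ → Set Ω) (n : ℕ) : Ω → ℝ :=
  ∑ k ∈ Finset.range n, v k • (s (k + 1)).indicator (fun _ => (1 : ℝ))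

theorem wp_diff (v : ℕ → ℝ) (s : ℕ → Set Ω) (n : ℕ) :
    wp v s (n + 1) - wp v s n = v n • (s (n + 1)).indicator (fun _ => (1 : ℝ)) := by
  simp only [wp, Finset.sum_range_succ_sub_sum]

theorem wp_diff_apply (v : ℕ → ℝ) (s : ℕ → Set Ω) (n : ℕ) (ω : Ω) :
    wp v s (n + 1) ω - wp v s n ω = v n * (s (n + 1)).indicator (fun _ => (1 : ℝ)) ω := by
  have := congrFun (wp_diff v s n) ω
  simpa using this

theorem ind_nonneg (A : Set Ω) (ω : Ω) : 0 ≤ A.indicator (fun _ => (1 : ℝ)) ω :=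
  Set.indicator_nonneg (fun _ _ => zero_le_one) _

theorem ind_le (A : Set Ω) (ω : Ω) : A.indicator (fun _ => (1 : ℝ)) ω ≤ 1 :=
  Set.indicator_le' (fun _ _ => le_rfl) (fun _ _ => zero_le_one) _

theorem wlv0 [IsFiniteMeasure μ] {s : ℕ → Set Ω}
    (hs : ∀ n, MeasurableSet[ℱ n] (s n)) (v : ℕ → ℝ) (hv0 : ∀ n, 0 ≤ v n) (hv1 : ∀ n, v n ≤ 1) :
    ∀ᵐ ω ∂μ,
    (Tendsto (fun n => ∑ k ∈ Finset.range n,
      v k * (s (k + 1)).indicator (fun _ => (1 : ℝ)) ω) atTop atTop ↔
    Tendsto (fun n => ∑ k ∈ Finset.range n,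
      v k * (μ[(s (k + 1)).indicator (fun _ => (1 : ℝ)) | ℱ k]) ω) atTop atTop) := by
  have hmono : ∀ᵐ ω ∂μ, ∀ n, wp v s n ω ≤ wp v s (n + 1) ω := by
    refine Eventually.of_forall fun ω n => ?_
    rw [← sub_nonneg, wp_diff_apply]
    exact mul_nonneg (hv0 n) (ind_nonneg _ _)
  have had : StronglyAdapted ℱ (wp v s) := fun n =>
    Finset.stronglyMeasurable_sum _ fun k hk =>
      (stronglyMeasurable_const.indicator
        (ℱ.mono (Nat.succ_le_of_lt (Finset.mem_range.1 hk)) _ (hs _))).const_smul (v k)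
  have hint1 : ∀ n, Integrable ((s n).indicator (fun _ => (1 : ℝ))) μ := fun n =>
    IntegrableOn.integrable_indicator (integrable_const 1) (ℱ.le _ _ (hs _))
  have hint : ∀ n, Integrable (wp v s n) μ := fun n =>
    integrable_finsetSum' _ fun k _ => (hint1 (k + 1)).smul (v k)
  have hbdd : ∀ᵐ ω ∂μ, ∀ n, |wp v s (n + 1) ω - wp v s n ω| ≤ (1 : ℝ≥0) := by
    refine Eventually.of_forall fun ω n => ?_
    rw [wp_diff_apply, abs_of_nonneg (mul_nonneg (hv0 n) (ind_nonneg _ _))]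
    have := mul_le_one₀ (hv1 n) (ind_nonneg (s (n + 1)) ω) (ind_le (s (n + 1)) ω)
    simpa using this
  have key := tendsto_sum_indicator_atTop_iff hmono had hint hbdd
  have hpp : ∀ᵐ ω ∂μ, ∀ k, (μ[wp v s (k + 1) - wp v s k | ℱ k]) ω
      = v k * (μ[(s (k + 1)).indicator (fun _ => (1 : ℝ)) | ℱ k]) ω := by
    refine ae_all_iff.2 fun k => ?_
    rw [wp_diff]
    filter_upwards [condExp_smul (μ := μ) (v k) ((s (k + 1)).indicator (fun _ => (1 : ℝ))) (ℱ k)]
      with ω hω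
    rw [hω]
    simp
  filter_upwards [key, hpp] with ω h1 h2
  have e1 : (fun n => wp v s n ω) = fun n => ∑ k ∈ Finset.range n,
      v k * (s (k + 1)).indicator (fun _ => (1 : ℝ)) ω := by
    funext n
    simp [wp, Finset.sum_apply]
  have e2 : (fun n => predictablePart (wp v s) ℱ μ n ω) = fun n => ∑ k ∈ Finset.range n,
      v k * (μ[(s (k + 1)).indicator (fun _ => (1 : ℝ)) | ℱ k]) ω := by
    funext n
    simp only [predictablePart, Finset.sum_apply]
    exact Finset.sum_congr rfl fun k _ => h2 k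
  rw [e1, e2] at h1
  exact h1

theorem wlv : Pool.Agent.N273.BR.WLV := by
  intro Ω m0 μ _ ℱ s hs v hv
  exact wlv0 hs v (fun n => (hv n).1) (fun n => (hv n).2)

end Pool.Agent.N596.BR

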